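import Pool.Agent.Q287.NT.Stm

/-!
Project NT (helper287): jobs EXPU, RES, BOX, GLUE.
-/

set_option autoImplicit false

namespace Pool.Agent.Q53.NT

open MeasureTheory Q287.NT Set
open scoped ENNReal

/-- **Job EXPU.** -/
theorem t_EXPU : S_EXPU := by
  intro X _ μ _ Y a hY hY0 hu ha
  have hm : Measurable fun x => Real.exp (-a * Y x) := (hY.const_mul _).exp
  rw [lintegral_eq_lintegral_meas_lt μ (Filter.Eventually.of_forall fun x => (Real.exp_pos _).le)
    hm.aemeasurable]
  have h1 : ∀ t ∈ Ioi (0 : ℝ), μ {x | t < Real.exp (-a * Y x)} ≤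
      (Ioo (0 : ℝ) 1).indicator (fun t => ENNReal.ofReal (-Real.log t / a)) t := by
    intro t ht
    by_cases h : t < 1
    · rw [indicator_of_mem (show t ∈ Ioo (0 : ℝ) 1 from ⟨ht, h⟩)]
      refine le_trans (measure_mono ?_) (hu _)
      intro x hx
      have h2 : Real.log t < -a * Y x := (Real.log_lt_iff_lt_exp ht).2 hx
      show Y x < -Real.log t / a
      rw [lt_div_iff₀ ha]
      linarith
    · have : {x | t < Real.exp (-a * Y x)} = ∅ := by
        ext x
        simp only [mem_ofPred_eq, mem_empty_iff_false, iff_false, not_lt]
        refine le_trans (Real.exp_le_one_iff.2 ?_) (not_lt.1 h)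
        have := mul_nonneg ha.le (hY0 x)
        linarith
      rw [this, measure_empty]
      exact zero_le
  refine (setLIntegral_mono_ae' measurableSet_Ioi (Filter.Eventually.of_forall h1)).trans ?_
  rw [lintegral_indicator measurableSet_Ioo, Measure.restrict_restrict measurableSet_Ioo]
  have h2 : Ioo (0 : ℝ) 1 ∩ Ioi 0 = Ioo 0 1 := inter_eq_left.2 fun x hx => hx.1
  rw [h2]
  have hint : IntegrableOn Real.log (Ioo (0 : ℝ) 1) := by
    have := (intervalIntegral.intervalIntegrable_log' (a := 0) (b := 1))
    rw [intervalIntegrable_iff_integrableOn_Ioo_of_le zero_le_one] at this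
    exact this
  have hint2 : IntegrableOn (fun t => -Real.log t / a) (Ioo (0 : ℝ) 1) := hint.neg.div_const a
  rw [← ofReal_integral_eq_lintegral_ofReal hint2]
  · refine ENNReal.ofReal_le_ofReal (le_of_eq ?_)
    rw [← integral_Ioc_eq_integral_Ioo, ← intervalIntegral.integral_of_le zero_le_one,
      intervalIntegral.integral_div, intervalIntegral.integral_neg, integral_log]
    simp
  · rw [Filter.EventuallyLE, ae_restrict_iff' measurableSet_Ioo]
    refine Filter.Eventually.of_forall fun t ht => ?_
    have := Real.log_nonpos ht.1.le ht.2.le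
    exact div_nonneg (by linarith) ha.le

theorem measurable_upd {X : Type} [MeasurableSpace X] (l : ℕ) :
    Measurable fun p : X × (ℕ → X) => Function.update p.2 l p.1 := by
  rw [measurable_pi_iff]
  intro i
  by_cases h : i = l
  · subst h
    simp only [Function.update_self]
    exact measurable_fst
  · simp only [Function.update_of_ne h]
    exact (measurable_pi_apply i).comp measurable_snd

/-- **Job RES.** -/
theorem t_RES : S_RES := by
  intro X _ μ _ l f hf
  have hmap : ((μ.prod (Measure.infinitePi fun _ : ℕ => μ)).map
      fun p : X × (ℕ → X) => Function.update p.2 l p.1) = Measure.infinitePi fun _ : ℕ => μ := by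
    apply Measure.eq_infinitePi
    intro s t ht
    rw [Measure.map_apply (measurable_upd l) (MeasurableSet.pi s.countable_toSet fun i _ => ht i)]
    classical
    by_cases hl : l ∈ s
    · have h1 : (fun p : X × (ℕ → X) => Function.update p.2 l p.1) ⁻¹' (Set.pi s t) =
          t l ×ˢ (Set.pi (s.erase l : Finset ℕ) t) := by
        ext p
        simp only [mem_preimage, mem_pi, Finset.mem_coe, mem_prod, Finset.mem_erase]
        constructor
        · intro h
          refine ⟨?_, fun i hi => ?_⟩
          · have := h l hl
            rwa [Function.update_self] at this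
          · have := h i hi.2
            rwa [Function.update_of_ne hi.1] at this
        · rintro ⟨h2, h3⟩ i hi
          by_cases hil : i = l
          · subst hil
            rw [Function.update_self]
            exact h2
          · rw [Function.update_of_ne hil]
            exact h3 i ⟨hil, hi⟩
      rw [h1, Measure.prod_prod, Measure.infinitePi_pi (fun _ : ℕ => μ) fun i _ => ht i,
        Finset.mul_prod_erase s (fun i => μ (t i)) hl]
    · have h1 : (fun p : X × (ℕ → X) => Function.update p.2 l p.1) ⁻¹' (Set.pi s t) =
          (univ : Set X) ×ˢ (Set.pi s t) := by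
        ext p
        simp only [mem_preimage, mem_pi, Finset.mem_coe, mem_prod, mem_univ, true_and]
        refine forall₂_congr fun i hi => ?_
        have hil : i ≠ l := fun e => hl (e ▸ hi)
        rw [Function.update_of_ne hil]
      rw [h1, Measure.prod_prod, measure_univ, one_mul,
        Measure.infinitePi_pi (fun _ : ℕ => μ) fun i _ => ht i]
  conv_lhs => rw [← hmap]
  rw [lintegral_map hf (measurable_upd l)]
  exact lintegral_prod_symm _ (hf.comp (measurable_upd l)).aemeasurable

/-- **Job BOX.** -/
theorem t_BOX : S_BOX := by
  intro X _ μ _ k B hB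
  have h1 : {y : ℕ → X | ∀ i < k, y i ∈ B} = Set.pi (Finset.range k : Finset ℕ) fun _ => B := by
    ext y
    simp [Set.mem_pi]
  rw [h1, Measure.infinitePi_pi (fun _ : ℕ => μ) fun i _ => hB, Finset.prod_const,
    Finset.card_range]

theorem measurable_glue {X : Type} [MeasurableSpace X] (t : ℕ) :
    Measurable fun p : (ℕ → X) × (ℕ → X) => glue t p.1 p.2 := by
  rw [measurable_pi_iff]
  intro i
  unfold glue
  by_cases h : i ≤ t
  · simp only [if_pos h]
    exact (measurable_pi_apply i).comp measurable_fst
  · simp only [if_neg h]
    exact (measurable_pi_apply _).comp measurable_snd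

/-- **Job GLUE.** -/
theorem t_GLUE : S_GLUE := by
  intro X _ μ _ t
  refine ⟨measurable_glue t, ?_⟩
  apply Measure.eq_infinitePi
  intro s T hT
  rw [Measure.map_apply (measurable_glue t) (MeasurableSet.pi s.countable_toSet fun i _ => hT i)]
  classical
  have h1 : (fun p : (ℕ → X) × (ℕ → X) => glue t p.1 p.2) ⁻¹' (Set.pi s T) =
      (Set.pi (s.filter (fun i => i ≤ t) : Finset ℕ) T) ×ˢ
      (Set.pi ((s.filter (fun i => ¬ i ≤ t)).image (fun i => i - t - 1) : Finset ℕ)
        (fun j => T (j + t + 1))) := by
    ext p
    simp only [mem_preimage, mem_pi, Finset.mem_coe, mem_prod, Finset.mem_filter,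
      Finset.mem_image]
    constructor
    · intro h
      refine ⟨fun i hi => ?_, ?_⟩
      · have := h i hi.1
        unfold glue at this
        rwa [if_pos hi.2] at this
      · rintro j ⟨i, ⟨hi, hit⟩, rfl⟩
        have := h i hi
        unfold glue at this
        rw [if_neg hit] at this
        have e : i - t - 1 + t + 1 = i := by omega
        rw [e]
        exact this
    · rintro ⟨h2, h3⟩ i hi
      unfold glue
      by_cases hit : i ≤ t
      · rw [if_pos hit]
        exact h2 i ⟨hi, hit⟩
      · rw [if_neg hit]
        have := h3 (i - t - 1) ⟨i, ⟨hi, hit⟩, rfl⟩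
        have e : i - t - 1 + t + 1 = i := by omega
        rwa [e] at this
  rw [h1, Measure.prod_prod, Measure.infinitePi_pi (fun _ : ℕ => μ) fun i _ => hT i,
    Measure.infinitePi_pi (fun _ : ℕ => μ) fun i _ => hT _, Finset.prod_image]
  · rw [← Finset.prod_filter_mul_prod_filter_not s (fun i => i ≤ t)]
    congr 1
    refine Finset.prod_congr rfl fun i hi => ?_
    have := (Finset.mem_filter.1 hi).2
    have e : i - t - 1 + t + 1 = i := by omega
    rw [e]
  · intro i hi j hj hij
    have := (Finset.mem_filter.1 hi).2
    have := (Finset.mem_filter.1 hj).2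
    simp only at hij
    omega

end Pool.Agent.Q53.NT
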