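import Pool.Agent.Q287.NT.Stm

/-!
Project NT (helper287): jobs I1, E2, PA, PB, PC, PD.
-/

set_option autoImplicit false

namespace Pool.Agent.Q53.NT

open MeasureTheory Q287.NT Set
open scoped ENNReal

variable {d : ℕ}

theorem V_monotone (d : ℕ) : Monotone (V d) := fun _ _ h => V_mono h

theorem meas_V (c : Tor d) : Measurable fun z : Tor d => V d (td z c) :=
  (V_monotone d).measurable.comp (measurable_td measurable_id measurable_const)

theorem meas_ball (c : Tor d) (s : ℝ) : MeasurableSet {z : Tor d | td z c < s} :=
  measurableSet_lt (measurable_td measurable_id measurable_const) measurable_const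

theorem meas_shell (c : Tor d) (r' r : ℝ) :
    MeasurableSet {z : Tor d | r' ≤ td z c ∧ td z c < r} :=
  (measurableSet_le measurable_const (measurable_td measurable_id measurable_const)).inter
    (meas_ball c r)

theorem meas_pt (i : ℕ) : Measurable fun y : ℕ → Tor d => y i := measurable_pi_apply i

/-- one coordinate -/
theorem PP_eval (l : ℕ) (S : Set (Tor d)) (hS : MeasurableSet S) :
    PP d {y | y l ∈ S} = volume S := by
  have h1 : {y : ℕ → Tor d | y l ∈ S} = Set.pi (({l} : Finset ℕ) : Set ℕ) fun _ => S := by
    ext y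
    simp
  rw [h1, PP, Measure.infinitePi_pi _ fun i _ => hS, Finset.prod_singleton]

/-- resampling for sets -/
theorem res_set (hRES : S_RES) (l : ℕ) (E : Set (ℕ → Tor d)) (hE : MeasurableSet E) :
    PP d E = ∫⁻ y, volume {a : Tor d | Function.update y l a ∈ E} ∂(PP d) := by
  have h1 := hRES (Tor d) volume l (E.indicator 1) (measurable_one.indicator hE)
  rw [lintegral_indicator_one hE] at h1
  refine h1.trans (lintegral_congr fun y => ?_)
  have h2 : MeasurableSet {a : Tor d | Function.update y l a ∈ E} := by
    have : Measurable fun a : Tor d => Function.update y l a := by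
      rw [measurable_pi_iff]
      intro i
      by_cases h : i = l
      · subst h
        simp only [Function.update_self]
        exact measurable_id
      · simp only [Function.update_of_ne h]
        exact measurable_const
    exact this hE
  rw [← lintegral_indicator_one h2]
  rfl

/-- **Job PB.** -/
theorem t_PB (_h : S_RES) : S_PB := by
  intro d c C r' r l hC
  set Sh := {z : Tor d | r' ≤ td z c ∧ td z c < r} with hSh
  have hShm : MeasurableSet Sh := meas_shell c r' r
  have h1 : {y : ℕ → Tor d | (r' ≤ td (y l) c ∧ td (y l) c < r) ∧ ∃ i < l, y i ∈ C} ⊆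
      ⋃ i ∈ Finset.range l, {y | y l ∈ Sh ∧ y i ∈ C} := by
    rintro y ⟨h, i, hi, hy⟩
    simp only [mem_iUnion, Finset.mem_range]
    exact ⟨i, hi, h, hy⟩
  refine (measure_mono h1).trans ((measure_biUnion_finset_le _ _).trans ?_)
  have h2 : ∀ i ∈ Finset.range l, PP d {y | y l ∈ Sh ∧ y i ∈ C} = volume C * volume Sh := by
    intro i hi
    have hil : i ≠ l := by
      have := Finset.mem_range.1 hi
      omega
    have h3 : {y : ℕ → Tor d | y l ∈ Sh ∧ y i ∈ C} =
        Set.pi (({i, l} : Finset ℕ) : Set ℕ) fun k => if k = l then Sh else C := by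
      ext y
      simp only [mem_ofPred_eq, mem_pi, Finset.coe_insert, Finset.coe_singleton,
        mem_insert_iff, mem_singleton_iff]
      constructor
      · rintro ⟨h4, h5⟩ k hk
        by_cases hkl : k = l
        · subst hkl
          rw [if_pos rfl]
          exact h4
        · rw [if_neg hkl]
          rcases hk with rfl | hk
          · exact h5
          · exact absurd hk hkl
      · intro h
        have h4 := h l (Or.inr rfl)
        have h5 := h i (Or.inl rfl)
        rw [if_pos rfl] at h4
        rw [if_neg hil] at h5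
        exact ⟨h4, h5⟩
    rw [h3, PP, Measure.infinitePi_pi, Finset.prod_pair hil]
    · rw [if_neg hil, if_pos rfl]
    · intro k _
      split_ifs
      · exact hShm
      · exact hC
  rw [Finset.sum_congr rfl h2, Finset.sum_const, Finset.card_range, nsmul_eq_mul, mul_assoc]

/-- **Job PA.** -/
theorem t_PA (hRES : S_RES) : S_PA := by
  intro d c r' r l
  set Sh := {z : Tor d | r' ≤ td z c ∧ td z c < r} with hSh
  have hShm : MeasurableSet Sh := meas_shell c r' r
  have h1 : {y : ℕ → Tor d | (r' ≤ td (y l) c ∧ td (y l) c < r) ∧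
      ∃ i < l, td (y l) (y i) < td (y l) c} ⊆
      ⋃ i ∈ Finset.range l, {y | y l ∈ Sh ∧ td (y l) (y i) < td (y l) c} := by
    rintro y ⟨h, i, hi, hy⟩
    simp only [mem_iUnion, Finset.mem_range]
    exact ⟨i, hi, h, hy⟩
  refine (measure_mono h1).trans ((measure_biUnion_finset_le _ _).trans ?_)
  have h2 : ∀ i ∈ Finset.range l, PP d {y | y l ∈ Sh ∧ td (y l) (y i) < td (y l) c} ≤
      ENNReal.ofReal (V d r) * volume Sh := by
    intro i hi
    have hil : l ≠ i := by
      have := Finset.mem_range.1 hi
      omega
    have hE : MeasurableSet {y : ℕ → Tor d | y l ∈ Sh ∧ td (y l) (y i) < td (y l) c} :=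
      ((meas_pt l) hShm).inter (measurableSet_lt (measurable_td (meas_pt l) (meas_pt i))
        (measurable_td (meas_pt l) measurable_const))
    rw [res_set hRES i _ hE]
    have h3 : ∀ y : ℕ → Tor d, volume {a : Tor d | Function.update y i a ∈
        {y : ℕ → Tor d | y l ∈ Sh ∧ td (y l) (y i) < td (y l) c}} ≤
        {y : ℕ → Tor d | y l ∈ Sh}.indicator (fun _ => ENNReal.ofReal (V d r)) y := by
      intro y
      simp only [mem_ofPred_eq, Function.update_self, Function.update_of_ne hil]
      by_cases hy : y l ∈ Sh
      · rw [indicator_of_mem (by exact hy)]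
        have q1 : volume {a : Tor d | y l ∈ Sh ∧ td (y l) a < td (y l) c} ≤
            volume {a : Tor d | td (y l) a < td (y l) c} := measure_mono fun a ha => ha.2
        refine q1.trans ?_
        rw [vol_ball']
        exact ENNReal.ofReal_le_ofReal (V_mono hy.2.le)
      · have : {a : Tor d | y l ∈ Sh ∧ td (y l) a < td (y l) c} = ∅ := by
          ext a
          simp [hy]
        rw [this, measure_empty]
        exact zero_le
    refine (lintegral_mono h3).trans ?_
    rw [lintegral_indicator (show MeasurableSet {y : ℕ → Tor d | y l ∈ Sh} from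
      (meas_pt l) hShm), setLIntegral_const, PP_eval l Sh hShm]
  refine (Finset.sum_le_sum h2).trans ?_
  rw [Finset.sum_const, Finset.card_range, nsmul_eq_mul, mul_assoc]

theorem vol_far (a c : Tor d) :
    volume {b : Tor d | td a c ≤ td a b} = ENNReal.ofReal (1 - V d (td a c)) := by
  have h1 : {b : Tor d | td a c ≤ td a b} = {b | td a b < td a c}ᶜ := by
    ext b
    simp
  have h2 : MeasurableSet {b : Tor d | td a b < td a c} :=
    measurableSet_lt (measurable_td measurable_const measurable_id) measurable_const
  rw [h1, prob_compl_eq_one_sub h2, vol_ball', ← ENNReal.ofReal_one,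
    ← ENNReal.ofReal_sub _ (V_nonneg _)]

theorem PP_far (hBOX : S_BOX) (k : ℕ) (a c : Tor d) :
    PP d {y | ∀ i < k, td a c ≤ td a (y i)} = ENNReal.ofReal ((1 - V d (td a c)) ^ k) := by
  have h2 : MeasurableSet {b : Tor d | td a c ≤ td a b} :=
    measurableSet_le measurable_const (measurable_td measurable_const measurable_id)
  have h3 := hBOX (Tor d) volume k {b : Tor d | td a c ≤ td a b} h2
  rw [vol_far, ← ENNReal.ofReal_pow (by linarith [V_le_one (d := d) (td a c)])] at h3
  exact h3

/-- **Job PC.** -/
theorem t_PC (hRES : S_RES) (hBOX : S_BOX) : S_PC := by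
  intro d c D r' r l L hL
  set Sh := {z : Tor d | r' ≤ td z c ∧ td z c < r} with hSh
  have hShm : MeasurableSet Sh := meas_shell c r' r
  set Af : ℕ → Set (ℕ → Tor d) := fun i =>
    {y | td (y i) c < D ∧ ∀ i' < i, td (y i) c ≤ td (y i) (y i')} with hAf
  have hAm : ∀ i, MeasurableSet (Af i) := by
    intro i
    refine (measurableSet_lt (measurable_td (meas_pt i) measurable_const)
      measurable_const).inter ?_
    have : {y : ℕ → Tor d | ∀ i' < i, td (y i) c ≤ td (y i) (y i')} =
        ⋂ i' ∈ Finset.range i, {y | td (y i) c ≤ td (y i) (y i')} := by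
      ext y
      simp
    show MeasurableSet {y : ℕ → Tor d | ∀ i' < i, td (y i) c ≤ td (y i) (y i')}
    rw [this]
    exact Finset.measurableSet_biInter _ fun i' _ => measurableSet_le
      (measurable_td (meas_pt i) measurable_const) (measurable_td (meas_pt i) (meas_pt i'))
  have h1 : {y : ℕ → Tor d | (r' ≤ td (y l) c ∧ td (y l) c < r) ∧ ∃ i < l, td (y i) c < D ∧
      (∀ i' < i, td (y i) c ≤ td (y i) (y i')) ∧ td (y l) (y i) < td c (y i)} ⊆
      ⋃ i ∈ Finset.range l, {y | y ∈ Af i ∧ y l ∈ Sh ∧ td (y l) (y i) < td c (y i)} := by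
    rintro y ⟨h, i, hi, h2, h3, h4⟩
    simp only [mem_iUnion, Finset.mem_range]
    exact ⟨i, hi, ⟨h2, h3⟩, h, h4⟩
  refine (measure_mono h1).trans ((measure_biUnion_finset_le _ _).trans ?_)
  rw [Finset.mul_sum]
  refine Finset.sum_le_sum fun i hi => ?_
  have hil : i ≠ l := by
    have := Finset.mem_range.1 hi
    omega
  have hil' := Finset.mem_range.1 hi
  -- step 1: resample the last point
  have step1 : PP d {y | y ∈ Af i ∧ y l ∈ Sh ∧ td (y l) (y i) < td c (y i)} ≤ L * PP d (Af i) := by
    have hE : MeasurableSet {y : ℕ → Tor d | y ∈ Af i ∧ y l ∈ Sh ∧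
        td (y l) (y i) < td c (y i)} :=
      (hAm i).inter (((meas_pt l) hShm).inter (measurableSet_lt
        (measurable_td (meas_pt l) (meas_pt i)) (measurable_td measurable_const (meas_pt i))))
    rw [res_set hRES l _ hE]
    have h3 : ∀ y : ℕ → Tor d, volume {a : Tor d | Function.update y l a ∈
        {y : ℕ → Tor d | y ∈ Af i ∧ y l ∈ Sh ∧ td (y l) (y i) < td c (y i)}} ≤
        (Af i).indicator (fun _ => L) y := by
      intro y
      have hAi : ∀ a : Tor d, Function.update y l a ∈ Af i ↔ y ∈ Af i := by
        intro a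
        simp only [hAf, mem_ofPred_eq, Function.update_of_ne hil]
        refine and_congr_right fun _ => forall₂_congr fun i' hi' => ?_
        rw [Function.update_of_ne (by omega)]
      simp only [mem_ofPred_eq, hAi, Function.update_self, Function.update_of_ne hil]
      by_cases hy : y ∈ Af i
      · rw [indicator_of_mem hy]
        refine (measure_mono ?_).trans (hL (y i) hy.1)
        rintro a ⟨_, h4, h5⟩
        exact ⟨h4.1, h4.2, h5⟩
      · have : {a : Tor d | y ∈ Af i ∧ a ∈ Sh ∧ td a (y i) < td c (y i)} = ∅ := by
          ext a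
          simp [hy]
        rw [this, measure_empty]
        exact zero_le
    refine (lintegral_mono h3).trans ?_
    rw [lintegral_indicator (hAm i), setLIntegral_const]
  refine step1.trans ?_
  gcongr
  -- step 2: the probability of `Af i`
  rw [res_set hRES i _ (hAm i)]
  set B : Set (Tor d × (ℕ → Tor d)) :=
    {p | td p.1 c < D ∧ ∀ i' < i, td p.1 c ≤ td p.1 (p.2 i')} with hB
  have hBm : MeasurableSet B := by
    refine (measurableSet_lt (measurable_td measurable_fst measurable_const)
      measurable_const).inter ?_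
    have : {p : Tor d × (ℕ → Tor d) | ∀ i' < i, td p.1 c ≤ td p.1 (p.2 i')} =
        ⋂ i' ∈ Finset.range i, {p | td p.1 c ≤ td p.1 (p.2 i')} := by
      ext y
      simp
    show MeasurableSet {p : Tor d × (ℕ → Tor d) | ∀ i' < i, td p.1 c ≤ td p.1 (p.2 i')}
    rw [this]
    exact Finset.measurableSet_biInter _ fun i' _ => measurableSet_le
      (measurable_td measurable_fst measurable_const)
      (measurable_td measurable_fst ((meas_pt i').comp measurable_snd))
  have e1 : ∫⁻ y, volume {a : Tor d | Function.update y i a ∈ Af i} ∂(PP d) =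
      ∫⁻ y, volume ((fun a : Tor d => (a, y)) ⁻¹' B) ∂(PP d) := by
    refine lintegral_congr fun y => ?_
    congr 1
    ext a
    simp only [hAf, hB, mem_ofPred_eq, Function.update_self, mem_preimage]
    refine and_congr_right fun _ => forall₂_congr fun i' hi' => ?_
    rw [Function.update_of_ne (by omega)]
  rw [e1, ← Measure.prod_apply_symm hBm, Measure.prod_apply hBm,
    ← lintegral_indicator (meas_ball c D)]
  refine lintegral_mono fun a => ?_
  by_cases ha : td a c < D
  · rw [indicator_of_mem (by exact ha), ← PP_far hBOX i a c]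
    exact measure_mono fun y hy => hy.2
  · have : Prod.mk a ⁻¹' B = ∅ := by
      ext y
      simp [hB, ha]
    rw [this, measure_empty]
    exact zero_le

/-- **Job PD.** -/
theorem t_PD (hRES : S_RES) (hBOX : S_BOX) : S_PD := by
  intro d c r' r l E θ hθ0 hθt hE
  set Sh := {z : Tor d | r' ≤ td z c ∧ td z c < r} with hSh
  have hShm : MeasurableSet Sh := meas_shell c r' r
  -- the measurable set of all `(y, a, z)`
  set B : Set (((ℕ → Tor d) × Tor d) × Tor d) :=
    {p | 3 * td p.1.2 c ≤ td p.2 p.1.2 ∧ ∀ i < l, td p.2 p.1.2 ≤ td p.2 (p.1.1 i)} with hB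
  have m1 : Measurable fun p : ((ℕ → Tor d) × Tor d) × Tor d => p.1.2 :=
    measurable_snd.comp measurable_fst
  have m2 : Measurable fun p : ((ℕ → Tor d) × Tor d) × Tor d => p.2 := measurable_snd
  have m3 : ∀ i, Measurable fun p : ((ℕ → Tor d) × Tor d) × Tor d => p.1.1 i := fun i =>
    (meas_pt i).comp (measurable_fst.comp measurable_fst)
  have hBm : MeasurableSet B := by
    refine (measurableSet_le ((measurable_td m1 measurable_const).const_mul 3)
      (measurable_td m2 m1)).inter ?_
    have : {p : ((ℕ → Tor d) × Tor d) × Tor d | ∀ i < l, td p.2 p.1.2 ≤ td p.2 (p.1.1 i)} =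
        ⋂ i ∈ Finset.range l, {p | td p.2 p.1.2 ≤ td p.2 (p.1.1 i)} := by
      ext y
      simp
    show MeasurableSet {p : ((ℕ → Tor d) × Tor d) × Tor d |
      ∀ i < l, td p.2 p.1.2 ≤ td p.2 (p.1.1 i)}
    rw [this]
    exact Finset.measurableSet_biInter _ fun i _ => measurableSet_le
      (measurable_td m2 m1) (measurable_td m2 (m3 i))
  -- the volume of the section
  set Fv : (ℕ → Tor d) × Tor d → ℝ≥0∞ := fun q => volume (Prod.mk q ⁻¹' B) with hFv
  have hFm : Measurable Fv := measurable_measure_prodMk_left hBm
  set Gf : (ℕ → Tor d) × Tor d → ℝ≥0∞ := fun q => Sh.indicator (fun _ => Fv q) q.2 with hGf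
  have hGm : Measurable Gf := by
    have : Gf = {q : (ℕ → Tor d) × Tor d | q.2 ∈ Sh}.indicator Fv := by
      funext q
      by_cases hq : q.2 ∈ Sh
      · rw [hGf]
        simp only
        rw [indicator_of_mem hq, indicator_of_mem (by exact hq)]
      · rw [hGf]
        simp only
        rw [indicator_of_notMem hq, indicator_of_notMem (by exact hq)]
    rw [this]
    exact hFm.indicator (measurable_snd hShm)
  have hcomp : Measurable fun y : ℕ → Tor d => Gf (y, y l) :=
    hGm.comp (measurable_id.prodMk (meas_pt l))
  have hsub : {y : ℕ → Tor d | (r' ≤ td (y l) c ∧ td (y l) c < r) ∧ θ < volume {z : Tor d |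
      3 * td (y l) c ≤ td z (y l) ∧ ∀ i < l, td z (y l) ≤ td z (y i)}} ⊆
      {y | θ ≤ Gf (y, y l)} := by
    rintro y ⟨h1, h2⟩
    show θ ≤ Sh.indicator (fun _ => Fv (y, y l)) (y l)
    rw [indicator_of_mem (show y l ∈ Sh from h1)]
    exact h2.le
  refine (measure_mono hsub).trans ((meas_ge_le_lintegral_div hcomp.aemeasurable hθ0 hθt).trans ?_)
  have key : ∫⁻ y, Gf (y, y l) ∂(PP d) ≤ E * volume Sh := by
    have e1 := hRES (Tor d) volume l (fun y => Gf (y, y l)) hcomp
    refine (le_of_eq e1).trans ?_
    have e2 : ∀ (y : ℕ → Tor d) (a : Tor d),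
        Gf (Function.update y l a, Function.update y l a l) = Gf (y, a) := by
      intro y a
      rw [Function.update_self]
      show Sh.indicator (fun _ => Fv (Function.update y l a, a)) a =
        Sh.indicator (fun _ => Fv (y, a)) a
      congr 1
      funext _
      show volume _ = volume _
      congr 1
      ext z
      simp only [hB, mem_preimage, mem_ofPred_eq]
      refine and_congr_right fun _ => forall₂_congr fun i hi => ?_
      rw [Function.update_of_ne (by omega)]
    simp only [e2]
    have e3 : ∫⁻ y, ∫⁻ a, Gf (y, a) ∂volume ∂(Measure.infinitePi fun _ : ℕ =>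
        (volume : Measure (Tor d))) = ∫⁻ a, ∫⁻ y, Gf (y, a) ∂(PP d) ∂volume :=
      lintegral_lintegral_swap (f := fun y a => Gf (y, a)) hGm.aemeasurable
    rw [e3]
    have e4 : ∀ a : Tor d, ∫⁻ y, Gf (y, a) ∂(PP d) ≤ Sh.indicator (fun _ => E) a := by
      intro a
      by_cases ha : a ∈ Sh
      · rw [indicator_of_mem ha]
        have e5 : ∫⁻ y, Gf (y, a) ∂(PP d) = ∫⁻ y, volume (Prod.mk (y, a) ⁻¹' B) ∂(PP d) := by
          refine lintegral_congr fun y => ?_
          show Sh.indicator (fun _ => Fv (y, a)) a = _
          rw [indicator_of_mem ha]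
        rw [e5]
        set B' : Set ((ℕ → Tor d) × Tor d) := {q | ((q.1, a), q.2) ∈ B} with hB'
        have hB'm : MeasurableSet B' := by
          have : Measurable fun q : (ℕ → Tor d) × Tor d => ((q.1, a), q.2) := by fun_prop
          exact this hBm
        have e6 : ∫⁻ y, volume (Prod.mk (y, a) ⁻¹' B) ∂(PP d) =
            ∫⁻ y, volume (Prod.mk y ⁻¹' B') ∂(PP d) := rfl
        rw [e6, ← Measure.prod_apply hB'm, Measure.prod_apply_symm hB'm]
        refine le_trans ?_ (hE a)
        have hm3 : MeasurableSet {z : Tor d | 3 * r' ≤ td z a} :=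
          measurableSet_le measurable_const (measurable_td measurable_id measurable_const)
        rw [← lintegral_indicator hm3]
        refine lintegral_mono fun z => ?_
        by_cases hz : 3 * td a c ≤ td z a
        · have hz' : 3 * r' ≤ td z a := by
            have := ha.1
            linarith
          rw [indicator_of_mem (by exact hz'), ← PP_far hBOX l z a]
          exact measure_mono fun y hy => hy.2
        · have : (fun y => (y, z)) ⁻¹' B' = ∅ := by
            ext y
            simp only [hB', hB, mem_preimage, mem_ofPred_eq, mem_empty_iff_false, iff_false]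
            exact fun h => hz h.1
          rw [this, measure_empty]
          exact zero_le
      · rw [indicator_of_notMem ha]
        have e7 : ∫⁻ y, Gf (y, a) ∂(PP d) = ∫⁻ _, 0 ∂(PP d) := by
          refine lintegral_congr fun y => ?_
          show Sh.indicator (fun _ => Fv (y, a)) a = 0
          rw [indicator_of_notMem ha]
        rw [e7, lintegral_zero]
    refine (lintegral_mono e4).trans ?_
    rw [lintegral_indicator hShm, setLIntegral_const]
  calc (∫⁻ y, Gf (y, y l) ∂(PP d)) / θ ≤ (E * volume Sh) / θ := ENNReal.div_le_div_right key θ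
    _ = E / θ * volume Sh := by
      rw [ENNReal.div_eq_inv_mul, ENNReal.div_eq_inv_mul, mul_assoc]

end Pool.Agent.Q53.NT
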