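import Pool.Agent.Q53.NT.B

/-!
Project NT (helper287): jobs I1, E2.
-/

set_option autoImplicit false

namespace Pool.Agent.Q53.NT

open MeasureTheory Q287.NT Set
open scoped ENNReal

/-- **Job I1.** -/
theorem t_I1 (hS : S_SCALE) : S_I1 := by
  intro d c r l hd hr hr2 hl
  have hd0 : (0 : ℝ) < d := by exact_mod_cast hd
  set v := V d r with hv
  have hv0 : 0 < v := V_pos hr
  set rk : ℕ → ℝ := fun k => (2 : ℝ) ^ ((k : ℝ) / d) * r with hrk
  have hrk0 : ∀ k, 0 < rk k := fun k => by simp only [hrk]; positivity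
  have hrkz : rk 0 = r := by simp [hrk]
  have hrkm : Monotone rk := by
    intro a b hab
    simp only [hrk]
    have : (2 : ℝ) ^ ((a : ℝ) / d) ≤ (2 : ℝ) ^ ((b : ℝ) / d) := by
      apply Real.rpow_le_rpow_of_exponent_le (by norm_num)
      have : (a : ℝ) ≤ b := by exact_mod_cast hab
      gcongr
    nlinarith
  have hrk5 : rk (5 * d) = 32 * r := by
    simp only [hrk]
    congr 1
    have : (((5 * d : ℕ) : ℝ) / d) = (5 : ℕ) := by
      push_cast
      field_simp
    rw [this, Real.rpow_natCast]
    norm_num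
  have hVrk : ∀ k ≤ 5 * d, V d (rk k) = 2 ^ k * v := by
    intro k hk
    have h1 : rk k ≤ 1 / 2 := (hrkm hk).trans (by rw [hrk5]; linarith)
    set a : ℝ := (2 : ℝ) ^ (-((k : ℝ) / d)) with ha
    have ha0 : 0 < a := by positivity
    have ha1 : a ≤ 1 := by
      apply Real.rpow_le_one_of_one_le_of_nonpos (by norm_num)
      have : 0 ≤ (k : ℝ) / d := by positivity
      linarith
    have h2 := hS d a (rk k) ha0 ha1 (hrk0 k) h1
    have h3 : a * rk k = r := by
      simp only [hrk, ha]
      rw [← mul_assoc, ← Real.rpow_add (by norm_num)]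
      simp
    have h4 : a ^ d * 2 ^ k = 1 := by
      rw [ha, ← Real.rpow_natCast, ← Real.rpow_mul (by norm_num), ← Real.rpow_natCast,
        ← Real.rpow_add (by norm_num)]
      have : -((k : ℝ) / d) * d + k = 0 := by
        field_simp
        ring
      rw [this, Real.rpow_zero]
    rw [h3] at h2
    rw [hv, h2, ← mul_assoc, mul_comm ((2 : ℝ) ^ k), h4, one_mul]
  have hmf : ∀ i : ℕ, Measurable fun z : Tor d => ENNReal.ofReal ((1 - V d (td z c)) ^ i) :=
    fun i => (((measurable_const.sub (meas_V c)).pow_const i)).ennreal_ofReal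
  rw [← lintegral_finsetSum _ fun i _ => hmf i]
  set F : Tor d → ℝ≥0∞ := fun z => ∑ i ∈ Finset.range l,
    ENNReal.ofReal ((1 - V d (td z c)) ^ i) with hF
  show ∫⁻ z in {z : Tor d | td z c < 24 * r}, F z ≤ _
  have hF1 : ∀ z, F z ≤ l := by
    intro z
    calc F z ≤ ∑ _i ∈ Finset.range l, (1 : ℝ≥0∞) := by
          refine Finset.sum_le_sum fun i _ => ?_
          rw [← ENNReal.ofReal_one]
          refine ENNReal.ofReal_le_ofReal (pow_le_one₀ ?_ ?_)
          · linarith [V_le_one (d := d) (td z c)]
          · linarith [V_nonneg (d := d) (td z c)]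
      _ = l := by simp
  have hF2 : ∀ z, ∀ w : ℝ, 0 < w → w ≤ V d (td z c) → F z ≤ ENNReal.ofReal (1 / w) := by
    intro z w hw hwV
    have h1 : F z = ENNReal.ofReal (∑ i ∈ Finset.range l, (1 - V d (td z c)) ^ i) := by
      rw [hF, ENNReal.ofReal_sum_of_nonneg]
      intro i _
      exact pow_nonneg (by linarith [V_le_one (d := d) (td z c)]) _
    rw [h1]
    refine ENNReal.ofReal_le_ofReal ?_
    have h2 := mul_neg_geom_sum (1 - V d (td z c)) l
    have h3 : 0 ≤ (1 - V d (td z c)) ^ l :=
      pow_nonneg (by linarith [V_le_one (d := d) (td z c)]) _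
    rw [sub_sub_cancel] at h2
    have h4 : 0 ≤ ∑ i ∈ Finset.range l, (1 - V d (td z c)) ^ i :=
      Finset.sum_nonneg fun i _ => pow_nonneg (by linarith [V_le_one (d := d) (td z c)]) _
    rw [le_div_iff₀ hw]
    nlinarith
  set Sk : ℕ → Set (Tor d) := fun k => {z | rk k ≤ td z c ∧ td z c < rk (k + 1)} with hSk
  have hSkm : ∀ k, MeasurableSet (Sk k) := fun k => meas_shell c _ _
  have hvol : ∀ k < 5 * d, volume (Sk k) = ENNReal.ofReal (2 ^ k * v) := by
    intro k hk
    have h1 : Sk k = {z | td z c < rk (k + 1)} \ {z | td z c < rk k} := by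
      ext z
      simp only [hSk, mem_ofPred_eq, mem_sdiff, not_lt]
      tauto
    have h2 : {z : Tor d | td z c < rk k} ⊆ {z | td z c < rk (k + 1)} :=
      fun z hz => lt_of_lt_of_le hz (hrkm (Nat.le_succ k))
    rw [h1, measure_sdiff h2
      (meas_ball c _).nullMeasurableSet (measure_ne_top _ _), vol_ball, vol_ball,
      ← ENNReal.ofReal_sub _ (V_nonneg _), hVrk k (by omega), hVrk (k + 1) (by omega)]
    congr 1
    ring
  -- the pointwise bound
  have hpt : ∀ z, ({z : Tor d | td z c < 24 * r}).indicator F z ≤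
      ({z : Tor d | td z c < r}).indicator (fun _ => (l : ℝ≥0∞)) z +
      ∑ k ∈ Finset.range (5 * d), (Sk k).indicator (fun _ => ENNReal.ofReal (1 / (2 ^ k * v))) z := by
    intro z
    by_cases h24 : td z c < 24 * r
    · rw [indicator_of_mem (by exact h24)]
      by_cases h1 : td z c < r
      · rw [indicator_of_mem (by exact h1)]
        exact (hF1 z).trans le_self_add
      · rw [not_lt] at h1
        obtain ⟨k, hk, hzk⟩ : ∃ k < 5 * d, z ∈ Sk k := by
          classical
          have hex : ∃ k, td z c < rk k := ⟨5 * d, by rw [hrk5]; linarith⟩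
          have hle : Nat.find hex ≤ 5 * d := Nat.find_min' hex (by rw [hrk5]; linarith)
          have hsp := Nat.find_spec hex
          have hne : Nat.find hex ≠ 0 := by
            intro h0
            rw [h0, hrkz] at hsp
            linarith
          obtain ⟨k, hk⟩ := Nat.exists_eq_succ_of_ne_zero hne
          refine ⟨k, by omega, ?_, ?_⟩
          · have := Nat.find_min hex (m := k) (by omega)
            exact not_lt.1 this
          · rw [hk] at hsp
            exact hsp
        have h2 : F z ≤ (Sk k).indicator (fun _ => ENNReal.ofReal (1 / (2 ^ k * v))) z := by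
          rw [indicator_of_mem hzk]
          refine hF2 z _ (by positivity) ?_
          rw [← hVrk k hk.le]
          exact V_mono hzk.1
        refine h2.trans (le_trans ?_ le_add_self)
        exact Finset.single_le_sum
          (f := fun k => (Sk k).indicator (fun _ => ENNReal.ofReal (1 / (2 ^ k * v))) z)
          (fun _ _ => zero_le) (Finset.mem_range.2 hk)
    · rw [indicator_of_notMem (by exact h24)]
      exact zero_le
  rw [← lintegral_indicator (meas_ball c _)]
  refine (lintegral_mono hpt).trans ?_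
  rw [lintegral_add_left (measurable_const.indicator (meas_ball c r)),
    lintegral_finsetSum _ fun k _ => measurable_const.indicator (hSkm k),
    lintegral_indicator (meas_ball c r), setLIntegral_const, vol_ball]
  have h5 : ∀ k ∈ Finset.range (5 * d), ∫⁻ z, (Sk k).indicator
      (fun _ => ENNReal.ofReal (1 / (2 ^ k * v))) z = 1 := by
    intro k hk
    rw [lintegral_indicator (hSkm k), setLIntegral_const, hvol k (Finset.mem_range.1 hk),
      ← ENNReal.ofReal_mul (by positivity), ← ENNReal.ofReal_one]
    congr 1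
    field_simp
  rw [Finset.sum_congr rfl h5]
  have h6 : (l : ℝ≥0∞) * ENNReal.ofReal (V d r) ≤ ENNReal.ofReal 1 := by
    rw [← ENNReal.ofReal_natCast, ← ENNReal.ofReal_mul (by positivity)]
    exact ENNReal.ofReal_le_ofReal hl
  calc (l : ℝ≥0∞) * ENNReal.ofReal (V d r) + ∑ _k ∈ Finset.range (5 * d), (1 : ℝ≥0∞)
      ≤ ENNReal.ofReal 1 + ENNReal.ofReal (5 * d) := by
        refine add_le_add h6 (le_of_eq ?_)
        rw [Finset.sum_const, Finset.card_range, nsmul_eq_mul, mul_one,
          ← ENNReal.ofReal_natCast]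
        congr 1
        push_cast
        ring
    _ = ENNReal.ofReal (1 + 5 * d) := (ENNReal.ofReal_add (by norm_num) (by positivity)).symm
    _ ≤ ENNReal.ofReal (5 * d + 2) := ENNReal.ofReal_le_ofReal (by linarith)

/-- **Job E2.** -/
theorem t_E2 (hS : S_SCALE) (hX : S_EXPU) (hU : S_UNI) : S_E2 := by
  intro d c r' l hd hr hr2 hl
  have hv0 : 0 < V d r' := V_pos hr
  have hl0 : (0 : ℝ) < l := by
    by_contra h
    have h0 : (l : ℝ) = 0 := le_antisymm (not_lt.1 h) (Nat.cast_nonneg l)
    rw [h0] at hl
    norm_num at hl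
  have h3 : V d (3 * r') = 3 ^ d * V d r' := by
    have := hS d (1 / 3) (3 * r') (by norm_num) (by norm_num) (by positivity) (by linarith)
    have h4 : (1 / 3 : ℝ) * (3 * r') = r' := by ring
    rw [h4] at this
    rw [this, ← mul_assoc, ← mul_pow]
    norm_num
  have hms : MeasurableSet {z : Tor d | 3 * r' ≤ td z c} :=
    measurableSet_le measurable_const (measurable_td measurable_id measurable_const)
  set K : ℝ≥0∞ := ENNReal.ofReal (Real.exp (-((3 : ℝ) ^ d / 64))) with hK
  have hpt : ∀ z, ({z : Tor d | 3 * r' ≤ td z c}).indicator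
      (fun z => ENNReal.ofReal ((1 - V d (td z c)) ^ l)) z ≤
      K * ENNReal.ofReal (Real.exp (-((l : ℝ) / 2) * V d (td z c))) := by
    intro z
    by_cases hz : 3 * r' ≤ td z c
    · rw [indicator_of_mem (by exact hz), hK, ← ENNReal.ofReal_mul (Real.exp_pos _).le,
        ← Real.exp_add]
      refine ENNReal.ofReal_le_ofReal ?_
      have h5 : 1 - V d (td z c) ≤ Real.exp (-V d (td z c)) := by
        have := Real.add_one_le_exp (-V d (td z c))
        linarith
      have h6 : (1 - V d (td z c)) ^ l ≤ Real.exp (-V d (td z c)) ^ l :=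
        pow_le_pow_left₀ (by linarith [V_le_one (d := d) (td z c)]) h5 l
      refine h6.trans ?_
      rw [← Real.exp_nat_mul]
      refine Real.exp_le_exp.2 ?_
      have h7 : 3 ^ d * V d r' ≤ V d (td z c) := by
        rw [← h3]
        exact V_mono hz
      have h8 : (3 : ℝ) ^ d / 64 ≤ (l : ℝ) / 2 * V d (td z c) := by
        have h9 : (3 : ℝ) ^ d * 1 ≤ 3 ^ d * (32 * (l : ℝ) * V d r') :=
          mul_le_mul_of_nonneg_left hl (by positivity)
        have h10 : (l : ℝ) * (3 ^ d * V d r') ≤ l * V d (td z c) :=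
          mul_le_mul_of_nonneg_left h7 hl0.le
        nlinarith
      nlinarith
    · rw [indicator_of_notMem (by exact hz)]
      exact zero_le
  rw [← lintegral_indicator hms]
  refine (lintegral_mono hpt).trans ?_
  rw [lintegral_const_mul' _ _ (by rw [hK]; exact ENNReal.ofReal_ne_top)]
  have h5 := hX (Tor d) volume (fun z => V d (td z c)) ((l : ℝ) / 2) (meas_V c)
    (fun z => V_nonneg _) (fun u => hU d c u hd) (by positivity)
  calc K * ∫⁻ z, ENNReal.ofReal (Real.exp (-((l : ℝ) / 2) * V d (td z c)))
      ≤ K * ENNReal.ofReal (64 * V d r') := by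
        gcongr
        refine h5.trans (ENNReal.ofReal_le_ofReal ?_)
        rw [div_le_iff₀ (by positivity)]
        nlinarith
    _ = ENNReal.ofReal (64 * V d r' * Real.exp (-((3 : ℝ) ^ d / 64))) := by
        rw [hK, ← ENNReal.ofReal_mul (Real.exp_pos _).le, mul_comm]

end Pool.Agent.Q53.NT
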